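import Pool.Agent.W997.CF.Stm
import Pool.Agent.W997.TS.Asym

/-!
# The law for a deterministic context-free language
-/

set_option autoImplicit false

namespace Pool.Agent.W997.CF

open Pool.Agent.W997.TS (DBP Var Input value rootValue bit)
open Pool.Agent.H561R2.CF (RDPDA)
open Finset

/-- The machine evaluates the tree also after leading zeros. -/
def S_PDA2 : Prop :=
  ∀ (d k n L j : ℕ), 1 ≤ L → k ≤ 2 ^ L → ∀ x : Input d k n,
    (List.replicate j (0 : Fin 6) ++ List.ofFn (word L x) ∈ mach.language ↔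
      bit (rootValue x) = true)

/-! ### The lengths -/

/-- The number of digits. -/
noncomputable def Lg (d n : ℕ) : ℕ := Nat.clog 2 (d ^ n)

/-- The number of variables. -/
noncomputable def NN (d n : ℕ) : ℕ := Fintype.card (Var d (d ^ n) n)

/-- The length of the word. -/
noncomputable def len (d n : ℕ) : ℕ := (wd d (d ^ n) n (Lg d n)).length

theorem Lg_pos {d n : ℕ} (hd : 2 ≤ d) (hn : 1 ≤ n) : 1 ≤ Lg d n := by
  unfold Lg
  have h1 : 2 ≤ d ^ n := by
    calc 2 ≤ d := hd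
      _ = d ^ 1 := (pow_one d).symm
      _ ≤ d ^ n := Nat.pow_le_pow_right (by omega) hn
  exact Nat.clog_pos (by norm_num) h1

theorem le_Lg (d n : ℕ) : d ^ n ≤ 2 ^ Lg d n := Nat.le_pow_clog (by norm_num) _

theorem Lg_le {d n : ℕ} (hd : 2 ≤ d) (hn : 1 ≤ n) : 2 ^ Lg d n ≤ 2 * d ^ n := by
  have h1 : 2 ≤ d ^ n := by
    calc 2 ≤ d := hd
      _ = d ^ 1 := (pow_one d).symm
      _ ≤ d ^ n := Nat.pow_le_pow_right (by omega) hn
  have h2 := Nat.pow_pred_clog_lt_self (b := 2) (by norm_num) (x := d ^ n) (by omega)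
  have h3 := Lg_pos hd hn
  unfold Lg at h3 ⊢
  obtain ⟨L, hL⟩ : ∃ L, Nat.clog 2 (d ^ n) = L + 1 := ⟨Nat.clog 2 (d ^ n) - 1, by omega⟩
  rw [hL] at h2 ⊢
  simp only [Nat.pred_eq_sub_one, Nat.add_sub_cancel] at h2
  rw [pow_succ]
  omega

theorem NN_le_len (h2 : S_MEM) {d n : ℕ} (hd : 2 ≤ d) (hn : 1 ≤ n) : NN d n ≤ len d n := by
  classical
  have hp : ∀ u : Var d (d ^ n) n, ∃ i : Fin (wd d (d ^ n) n (Lg d n)).length,
      (wd d (d ^ n) n (Lg d n)).get i = Sum.inr (u, 0) := fun u =>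
    List.mem_iff_get.1 (h2 d (d ^ n) n (Lg d n) (Lg_pos hd hn) (le_Lg d n) u 0 (Lg_pos hd hn))
  choose f hf using hp
  have := Fintype.card_le_of_injective f (fun u u' h => by
    have h1 := hf u
    rw [h, hf u'] at h1
    have h3 := Sum.inr.inj h1
    exact (Prod.ext_iff.1 h3).1.symm)
  simpa [NN, len] using this

theorem card_inner_succ (d n : ℕ) : Fintype.card {v : List (Fin d) // v.length < n + 1} ≤
    d * Fintype.card {v : List (Fin d) // v.length < n} + 1 := by
  classical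
  have h1 := Fintype.card_le_of_injective
    (β := Option (Fin d × {v : List (Fin d) // v.length < n}))
    (fun v : {v : List (Fin d) // v.length < n + 1} => match v with
      | ⟨[], _⟩ => none
      | ⟨s :: w, h⟩ => some (s, ⟨w, by simpa using h⟩)) (by
      rintro ⟨_ | ⟨s, w⟩, h⟩ ⟨_ | ⟨s', w'⟩, h'⟩ hh
      · rfl
      · simp at hh
      · simp at hh
      · simp only [Option.some.injEq, Prod.mk.injEq, Subtype.mk.injEq] at hh
        obtain ⟨rfl, rfl⟩ := hh
        rfl)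
  refine h1.trans ?_
  rw [Fintype.card_option, Fintype.card_prod, Fintype.card_fin]

theorem NN_succ {d n : ℕ} (hd : 2 ≤ d) (hn : 1 ≤ n) : NN d (n + 1) ≤ (d + 1) * d ^ d * NN d n := by
  unfold NN
  rw [TS.card_var, TS.card_var]
  have h1 := card_inner_succ d n
  have h2 := TS.one_le_card_inner (d := d) hn
  set I := Fintype.card {v : List (Fin d) // v.length < n}
  set I' := Fintype.card {v : List (Fin d) // v.length < n + 1}
  have h3 : I' ≤ (d + 1) * I := by nlinarith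
  have h4 : (d ^ (n + 1)) ^ d = d ^ d * (d ^ n) ^ d := by
    rw [← pow_mul, ← pow_mul, ← pow_add]
    ring_nf
  have h5 : 1 ≤ d ^ d := Nat.one_le_pow _ _ (by omega)
  calc I' * (d ^ (n + 1)) ^ d + d ^ (n + 1)
      ≤ ((d + 1) * I) * (d ^ d * (d ^ n) ^ d) + (d + 1) * d ^ d * d ^ n := by
        apply Nat.add_le_add
        · rw [h4]
          exact Nat.mul_le_mul_right _ h3
        · rw [pow_succ, mul_comm (d ^ n) d]
          apply Nat.mul_le_mul_right
          nlinarith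
    _ = (d + 1) * d ^ d * (I * (d ^ n) ^ d + d ^ n) := by ring

theorem le_NN {d n : ℕ} (hd : 2 ≤ d) (hn : 1 ≤ n) : n + 1 ≤ NN d n := by
  have h1 : d ^ (n * d) ≤ NN d n := TS.le_card_var hn
  have h2 : 2 ^ n ≤ d ^ (n * d) := by
    calc 2 ^ n ≤ d ^ n := Nat.pow_le_pow_left hd n
      _ ≤ d ^ (n * d) := Nat.pow_le_pow_right (by omega) (by nlinarith)
  have h3 : n < 2 ^ n := Nat.lt_two_pow_self
  omega

theorem len_le (h3 : S_LEN) {d n : ℕ} (hd : 2 ≤ d) (hn : 1 ≤ n) {a : ℝ}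
    (ha : (2 : ℝ) ^ d * ((Lg d n : ℝ) + 3) + 1 ≤ a) : (len d n : ℝ) ≤ NN d n * a := by
  have h := h3 d (d ^ n) n (Lg d n) hd (Lg_pos hd hn) (Lg_le hd hn)
  have hR : (len d n : ℝ) ≤ NN d n * (2 ^ d * ((Lg d n : ℝ) + 3)) + 1 := by
    unfold len NN
    exact_mod_cast h
  have h1 : (1 : ℝ) ≤ NN d n := by
    have := le_NN hd hn
    exact_mod_cast (by omega : 1 ≤ NN d n)
  nlinarith

/-- For every large `m` there is a height whose words have length at most `m`, and almost `m`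
variables. -/
theorem exists_height (h2 : S_MEM) (h3 : S_LEN) (h6 : S_NUM) {d : ℕ} (hd : 2 ≤ d) {η : ℝ}
    (hη : 0 < η) (hη1 : η ≤ 1) (n₀ : ℕ) : ∃ m₀ : ℕ, ∀ m : ℕ, m₀ ≤ m → ∃ n : ℕ, n₀ ≤ n ∧ 1 ≤ n ∧
      len d n ≤ m ∧ (m : ℝ) ≤ (NN d n : ℝ) ^ (1 + η) ∧
      (2 : ℝ) ^ d * ((Lg d n : ℝ) + 3) + 1 ≤ (NN d n : ℝ) ^ η := by
  obtain ⟨n₁, hn₁⟩ := h6 d (η / 3) hd (by positivity)
  obtain ⟨n₂, hn₂⟩ := exists_nat_ge (((d + 1) * d ^ d : ℕ) : ℝ) 
  have hη3 : (0 : ℝ) < η / 3 := by positivity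
  obtain ⟨n₃, hn₃⟩ := exists_nat_ge ((((d + 1) * d ^ d : ℕ) : ℝ) ^ (1 / (η / 3)))
  set n₄ := max (max n₀ n₁) (max n₃ 1) with hn₄
  refine ⟨len d n₄, fun m hm => ?_⟩
  set n := Nat.findGreatest (fun n => len d n ≤ m) m with hn
  have hb : ∀ j, 1 ≤ j → j + 1 ≤ len d j := fun j hj => (le_NN hd hj).trans (NN_le_len h2 hd hj)
  have hn₄m : n₄ ≤ m := by
    have := hb n₄ (by omega)
    omega
  have hle : n₄ ≤ n := Nat.le_findGreatest hn₄m hm
  have hP : len d n ≤ m := Nat.findGreatest_spec (P := fun n => len d n ≤ m) hn₄m hm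
  have hn1 : 1 ≤ n := by omega
  have hlt : m < len d (n + 1) := by
    by_contra hcon
    push Not at hcon
    have h1 := hb (n + 1) (by omega)
    have h4 : n + 1 ≤ n := Nat.le_findGreatest (P := fun n => len d n ≤ m) (by omega) hcon
    omega
  have hNpos : ∀ j, 1 ≤ j → (1 : ℝ) ≤ NN d j := fun j hj => by
    have := le_NN hd hj
    exact_mod_cast (by omega : 1 ≤ NN d j)
  have hN1 := hNpos n hn1
  have hN2 := hNpos (n + 1) (by omega)
  have hC : (((d + 1) * d ^ d : ℕ) : ℝ) ≤ (NN d n : ℝ) ^ (η / 3) := by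
    have h1 : ((((d + 1) * d ^ d : ℕ) : ℝ) ^ (1 / (η / 3))) ≤ NN d n := by
      refine hn₃.trans ?_
      have := le_NN hd hn1
      exact_mod_cast (by omega : n₃ ≤ NN d n)
    calc (((d + 1) * d ^ d : ℕ) : ℝ)
        = ((((d + 1) * d ^ d : ℕ) : ℝ) ^ (1 / (η / 3))) ^ (η / 3) := by
          rw [← Real.rpow_mul (by positivity), one_div_mul_cancel hη3.ne', Real.rpow_one]
      _ ≤ (NN d n : ℝ) ^ (η / 3) := Real.rpow_le_rpow (by positivity) h1 hη3.le
  have hNN : (NN d (n + 1) : ℝ) ≤ (NN d n : ℝ) ^ (1 + η / 3) := by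
    have h1 : (NN d (n + 1) : ℝ) ≤ (((d + 1) * d ^ d : ℕ) : ℝ) * NN d n := by
      exact_mod_cast NN_succ hd hn1
    calc (NN d (n + 1) : ℝ) ≤ (((d + 1) * d ^ d : ℕ) : ℝ) * NN d n := h1
      _ ≤ (NN d n : ℝ) ^ (η / 3) * NN d n := mul_le_mul_of_nonneg_right hC (by linarith)
      _ = (NN d n : ℝ) ^ (1 + η / 3) := by
        rw [Real.rpow_add (by linarith), Real.rpow_one, mul_comm]
  refine ⟨n, by omega, hn1, hP, ?_, ?_⟩
  · have h1 := len_le h3 hd (n := n + 1) (by omega)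
      (hn₁ (n + 1) (by omega) (Lg d (n + 1)) (Lg_le hd (by omega)))
    calc (m : ℝ) ≤ len d (n + 1) := by exact_mod_cast hlt.le
      _ ≤ NN d (n + 1) * (NN d (n + 1) : ℝ) ^ (η / 3) := h1
      _ = (NN d (n + 1) : ℝ) ^ (1 + η / 3) := by
        rw [Real.rpow_add (by linarith), Real.rpow_one]
      _ ≤ ((NN d n : ℝ) ^ (1 + η / 3)) ^ (1 + η / 3) :=
        Real.rpow_le_rpow (by linarith) hNN (by linarith)
      _ = (NN d n : ℝ) ^ ((1 + η / 3) * (1 + η / 3)) := by
        rw [← Real.rpow_mul (by linarith)]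
      _ ≤ (NN d n : ℝ) ^ (1 + η) := by
        apply Real.rpow_le_rpow_of_exponent_le hN1
        nlinarith
  · refine (hn₁ n (by omega) (Lg d n) (Lg_le hd hn1)).trans ?_
    exact Real.rpow_le_rpow_of_exponent_le hN1 (by linarith)

/-! ### The padded words -/

/-- The template of the padded word of length `m`. -/
noncomputable def T (d k n L m : ℕ) (i : Fin m) : TL (Var d k n) :=
  if i.val < m - (wd d k n L).length then Sum.inl 0
  else (wd d k n L).getD (i.val - (m - (wd d k n L).length)) (Sum.inl 0)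

/-- The padded word of an input. -/
noncomputable def pw {d k n : ℕ} (L m : ℕ) (x : Input d k n) : Fin m → Fin 6 :=
  fun i => ev x (T d k n L m i)

theorem ofFn_pw {d k n L m : ℕ} (h : (wd d k n L).length ≤ m) (x : Input d k n) :
    List.ofFn (pw L m x) =
      List.replicate (m - (wd d k n L).length) (0 : Fin 6) ++ List.ofFn (word L x) := by
  apply List.ext_getElem
  · simp
    omega
  · intro i h1 h2
    simp only [List.getElem_ofFn, pw, T]
    rcases lt_or_ge i (m - (wd d k n L).length) with hi | hi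
    · rw [if_pos hi, List.getElem_append_left (by simpa using hi)]
      simp [ev]
    · rw [if_neg (not_lt.2 hi), List.getElem_append_right (by simpa using hi)]
      simp only [List.getElem_ofFn, word, List.length_replicate, List.get_eq_getElem]
      congr 1
      have h3 : i - (m - (wd d k n L).length) < (wd d k n L).length := by
        rw [List.length_ofFn] at h1
        omega
      rw [List.getD_eq_getElem _ _ h3]

theorem exists_pos (h2 : S_MEM) {d k n L m : ℕ} (hL : 1 ≤ L) (hk : k ≤ 2 ^ L)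
    (h : (wd d k n L).length ≤ m) (u : Var d k n) (e : ℕ) (he : e < L) :
    ∃ i : Fin m, T d k n L m i = Sum.inr (u, e) := by
  obtain ⟨j, hj⟩ := List.mem_iff_getElem.1 (h2 d k n L hL hk u e he)
  obtain ⟨hj1, hj2⟩ := hj
  refine ⟨⟨j + (m - (wd d k n L).length), by omega⟩, ?_⟩
  simp only [T]
  rw [if_neg (by omega), Nat.add_sub_cancel, List.getD_eq_getElem _ _ hj1, hj2]

theorem pw_injective (h2 : S_MEM) {d k n L m : ℕ} (hL : 1 ≤ L) (hk : k ≤ 2 ^ L)
    (h : (wd d k n L).length ≤ m) : Function.Injective (pw (d := d) (k := k) (n := n) L m) := by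
  intro x x' hx
  funext u
  apply Fin.ext
  apply Nat.eq_of_testBit_eq
  intro e
  rcases lt_or_ge e L with he | he
  · obtain ⟨i, hi⟩ := exists_pos h2 hL hk h u e he
    have h3 := congrFun hx i
    simp only [pw, hi, ev] at h3
    by_cases h4 : (x u).val.testBit e <;> by_cases h5 : (x' u).val.testBit e <;>
      simp_all
  · have h4 : (x u).val < 2 ^ e :=
      ((x u).2.trans_le hk).trans_le (Nat.pow_le_pow_right (by norm_num) he)
    have h5 : (x' u).val < 2 ^ e :=
      ((x' u).2.trans_le hk).trans_le (Nat.pow_le_pow_right (by norm_num) he)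
    rw [Nat.testBit_lt_two_pow h4, Nat.testBit_lt_two_pow h5]

/-! ### The law -/

/-- The words in `F` are decided within the given log size and time. -/
def Decided {m : ℕ} (A : Language (Fin 6)) (F : Finset (Fin m → Fin 6)) (s t : ℝ) : Prop :=
  ∃ P : DBP (Fin m) 6, Real.log P.size ≤ s ∧ ∀ w ∈ F, ∃ (t' l : ℕ) (r : Bool), (t' : ℝ) ≤ t ∧
    P.Run w t' l r ∧ (r = true ↔ List.ofFn w ∈ A)

open Classical in
/-- Programs of the given log size which are right on the given fraction of the words in `F` read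
on average at least the given number of positions. -/
def Hard {m : ℕ} (A : Language (Fin 6)) (F : Finset (Fin m → Fin 6)) (s γ l : ℝ) : Prop :=
  ∀ (P : DBP (Fin m) 6) (T S : (Fin m → Fin 6) → ℕ) (R : (Fin m → Fin 6) → Bool),
    Real.log P.size ≤ s → (∀ w ∈ F, P.Run w (T w) (S w) (R w)) →
    (1 / 2 + γ) * #F ≤ #{w ∈ F | R w = true ↔ List.ofFn w ∈ A} → l * #F ≤ ∑ w ∈ F, (S w : ℝ)

theorem main (h1 : S_PDA2) (h2 : S_MEM) (h3 : S_LEN) (h4 : S_SIM) (h5 : S_TRANS) (h6 : S_NUM)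
    (δ : ℝ) (hδ : 0 < δ) : ∃ ε : ℝ, 0 < ε ∧ ∃ c : ℝ, 0 < c ∧ ∃ m₀ : ℕ, ∀ m : ℕ, m₀ ≤ m →
      ∃ F : Finset (Fin m → Fin 6), F.Nonempty ∧
        Decided mach.language F (5 * Real.log m ^ 2) ((m : ℝ) ^ δ) ∧
        Hard mach.language F (ε * Real.log m ^ 2) ((m : ℝ) ^ (-c)) ((m : ℝ) ^ (1 - δ)) := by
  classical
  set δ₁ : ℝ := min δ 1 with hδ₁
  have hδ₁0 : 0 < δ₁ := lt_min hδ (by norm_num)
  have hδ₁1 : δ₁ ≤ 1 := min_le_right _ _
  have hδ₁δ : δ₁ ≤ δ := min_le_left _ _
  set η : ℝ := δ₁ / 4 with hη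
  have hη0 : 0 < η := by positivity
  have hη1 : η ≤ 1 / 4 := by rw [hη]; linarith
  obtain ⟨d, hd, ε, hε, c, hc, n₀, H⟩ := TS.threshold η hη0
  obtain ⟨m₀, hm₀⟩ := exists_height h2 h3 h6 hd hη0 (by linarith) n₀
  refine ⟨ε / 4, by positivity, c / 2, by positivity, m₀, fun m hm => ?_⟩
  obtain ⟨n, hn, hn1, hlen, hmN, hovh⟩ := hm₀ m hm
  obtain ⟨⟨P, hPs, hPr⟩, hlow⟩ := H n hn
  have hNlen := NN_le_len h2 hd hn1
  have hNm : NN d n ≤ m := hNlen.trans hlen
  have hN2 := le_NN hd hn1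
  change Real.log P.size ≤ 4 * (Real.log (NN d n)) ^ 2 at hPs
  change ∀ x : Input d (d ^ n) n, ∃ t m : ℕ, (t : ℝ) ≤ (NN d n : ℝ) ^ η ∧ _ at hPr
  set N : ℕ := NN d n with hNdef
  have hN1 : (1 : ℝ) ≤ N := by exact_mod_cast (by omega : 1 ≤ N)
  have hN0 : (0 : ℝ) < N := by linarith
  have hNmR : (N : ℝ) ≤ m := by exact_mod_cast hNm
  have hm1 : (1 : ℝ) ≤ m := hN1.trans hNmR
  have hm0 : (0 : ℝ) < m := by linarith
  have hlogN : 0 ≤ Real.log N := Real.log_nonneg hN1
  have hlogm : Real.log N ≤ Real.log m := Real.log_le_log hN0 hNmR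
  have hlogm2 : Real.log m ≤ 2 * Real.log N := by
    have h := Real.log_le_log hm0 hmN
    rw [Real.log_rpow hN0] at h
    nlinarith
  set L : ℕ := Lg d n with hL
  have hL1 : 1 ≤ L := Lg_pos hd hn1
  have hk : d ^ n ≤ 2 ^ L := le_Lg d n
  have hdn : 2 ≤ d ^ n := by
    calc 2 ≤ d := hd
      _ = d ^ 1 := (pow_one d).symm
      _ ≤ d ^ n := Nat.pow_le_pow_right (by omega) hn1
  have hlen' : (wd d (d ^ n) n L).length ≤ m := hlen
  have hinj : Function.Injective (pw (d := d) (k := d ^ n) (n := n) L m) :=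
    pw_injective h2 hL1 hk hlen'
  have hlang : ∀ x : Input d (d ^ n) n, (List.ofFn (pw L m x) ∈ mach.language ↔
      bit (rootValue x) = true) := by
    intro x
    rw [ofFn_pw hlen']
    exact h1 d (d ^ n) n L _ hL1 hk x
  have : Nonempty (Fin (d ^ n)) := ⟨⟨0, by omega⟩⟩
  have hvar : Nonempty (Var d (d ^ n) n) := Fintype.card_pos_iff.1 (by
    change 0 < NN d n
    omega)
  obtain ⟨u₀⟩ := hvar
  refine ⟨univ.image (pw (d := d) (k := d ^ n) (n := n) L m), ?_, ?_, ?_⟩
  · exact univ_nonempty.image _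
  · -- the upper bound
    have hpos : ∃ pos : Var d (d ^ n) n → ℕ → Fin m, ∀ u e, e < L →
        T d (d ^ n) n L m (pos u e) = Sum.inr (u, e) := by
      have : ∀ (u : Var d (d ^ n) n) (e : ℕ), ∃ i : Fin m, e < L →
          T d (d ^ n) n L m i = Sum.inr (u, e) := by
        intro u e
        by_cases he : e < L
        · obtain ⟨i, hi⟩ := exists_pos h2 hL1 hk hlen' u e he
          exact ⟨i, fun _ => hi⟩
        · exact ⟨⟨0, by omega⟩, fun h => absurd h he⟩
      choose pos hpos using this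
      exact ⟨pos, hpos⟩
    obtain ⟨pos, hpos⟩ := hpos
    obtain ⟨P', hP's, hP'r⟩ := h4 (Var d (d ^ n) n) inferInstance (d ^ n) m L P pos hL1 hk
    have hsize : 1 ≤ P.size := Fintype.card_pos_iff.2 ⟨P.start⟩
    have hsize' : 1 ≤ P'.size := Fintype.card_pos_iff.2 ⟨P'.start⟩
    refine ⟨P', ?_, ?_⟩
    · have e1 : Real.log P'.size ≤ Real.log P.size + Real.log (2 ^ L) := by
        rw [← Real.log_mul (by positivity) (by positivity)]
        apply Real.log_le_log (by exact_mod_cast hsize')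
        exact_mod_cast hP's
      have e2 : (2 : ℝ) ^ L ≤ N := by
        have e3 : 2 ^ L ≤ 2 * d ^ n := Lg_le hd hn1
        have e4 : d ^ (n * d) ≤ N := TS.le_card_var hn1
        have e5 : (d ^ n) ^ 2 ≤ d ^ (n * d) := by
          rw [← pow_mul]
          exact Nat.pow_le_pow_right (by omega) (Nat.mul_le_mul_left _ hd)
        have e6 : 2 ^ L ≤ N := by nlinarith
        exact_mod_cast e6
      have e3 : Real.log (2 ^ L) ≤ Real.log N := Real.log_le_log (by positivity) e2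
      have e4 : (1 : ℝ) ≤ Real.log N := by
        have e5 : d ^ (n * d) ≤ N := TS.le_card_var hn1
        have e6 : 2 ^ 2 ≤ d ^ (n * d) := by
          calc 2 ^ 2 ≤ d ^ 2 := Nat.pow_le_pow_left hd 2
            _ ≤ d ^ (n * d) := Nat.pow_le_pow_right (by omega) (by nlinarith)
        have e7 : (4 : ℝ) ≤ N := by exact_mod_cast (by omega : 4 ≤ N)
        have e8 : Real.log 4 ≤ Real.log N := Real.log_le_log (by norm_num) e7
        have e9 : Real.log 4 = 2 * Real.log 2 := by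
          rw [show (4 : ℝ) = 2 ^ 2 by norm_num, Real.log_pow]
          norm_num
        have := Real.log_two_gt_d9
        linarith
      nlinarith
    · intro w hw
      obtain ⟨x, -, rfl⟩ := mem_image.1 hw
      obtain ⟨t, s, ht, hrun⟩ := hPr x
      obtain ⟨s', hs'⟩ := hP'r x (pw L m x) (fun u e he => by
        simp only [pw, hpos u e he, ev]) t s _ (by convert hrun)
      refine ⟨L * t, s', _, ?_, hs', (hlang x).symm⟩
      have e1 : (L : ℝ) ≤ (N : ℝ) ^ η := by
        refine le_trans ?_ hovh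
        have e2 : (1 : ℝ) ≤ 2 ^ d := one_le_pow₀ (by norm_num)
        have e3 : (0 : ℝ) ≤ L := Nat.cast_nonneg _
        nlinarith
      push_cast
      calc (L : ℝ) * t ≤ (N : ℝ) ^ η * (N : ℝ) ^ η :=
            mul_le_mul e1 ht (Nat.cast_nonneg _) (by positivity)
        _ = (N : ℝ) ^ (η + η) := (Real.rpow_add hN0 _ _).symm
        _ ≤ (N : ℝ) ^ δ := Real.rpow_le_rpow_of_exponent_le hN1 (by rw [hη]; linarith)
        _ ≤ (m : ℝ) ^ δ := Real.rpow_le_rpow hN0.le hNmR hδ.le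
  · -- the lower bound
    intro Q T' S R hQs hQr hQ
    obtain ⟨Q', hQ's, hQ'r⟩ := h5 (Var d (d ^ n) n) inferInstance (d ^ n) m Q
      (T d (d ^ n) n L m) u₀
    have hM : ∀ x : Input d (d ^ n) n, ∃ s', s' ≤ S (pw L m x) ∧
        Q'.Run x (T' (pw L m x)) s' (R (pw L m x)) := fun x =>
      hQ'r x (pw L m x) (fun i => rfl) _ _ _ (hQr _ (mem_image_of_mem _ (mem_univ x)))
    choose M hM1 hM2 using hM
    have hcard : #(univ.image (pw (d := d) (k := d ^ n) (n := n) L m)) =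
        Fintype.card (Input d (d ^ n) n) := by
      rw [card_image_of_injective _ hinj, card_univ]
    have hbool : ∀ (r b : Bool) (A : Prop), (A ↔ b = true) → ((r = true ↔ A) ↔ r = b) := by
      intro r b A h
      rw [h]
      cases r <;> cases b <;> simp
    have hfil : #{w ∈ univ.image (pw (d := d) (k := d ^ n) (n := n) L m) |
        R w = true ↔ List.ofFn w ∈ mach.language} =
        #(univ.filter (fun x : Input d (d ^ n) n => R (pw L m x) = bit (rootValue x))) := by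
      rw [filter_image, card_image_of_injective _ hinj]
      congr 1
      apply filter_congr
      intro x _
      exact hbool _ _ _ (hlang x)
    rw [hcard, hfil] at hQ
    have key := hlow Q' (fun x => T' (pw L m x)) M (fun x => R (pw L m x)) ?_ ?_ ?_
    · rw [hcard, sum_image (fun x _ y _ h => hinj h)]
      have e1 : (m : ℝ) ^ (1 - δ) ≤ (N : ℝ) ^ (1 - η) := by
        calc (m : ℝ) ^ (1 - δ) ≤ (m : ℝ) ^ (1 - δ₁) :=
              Real.rpow_le_rpow_of_exponent_le hm1 (by linarith)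
          _ ≤ ((N : ℝ) ^ (1 + η)) ^ (1 - δ₁) := Real.rpow_le_rpow hm0.le hmN (by linarith)
          _ = (N : ℝ) ^ ((1 + η) * (1 - δ₁)) := by rw [← Real.rpow_mul hN0.le]
          _ ≤ (N : ℝ) ^ (1 - η) := by
            apply Real.rpow_le_rpow_of_exponent_le hN1
            have : δ₁ = 4 * η := by rw [hη]; ring
            rw [this]
            nlinarith
      calc (m : ℝ) ^ (1 - δ) * (Fintype.card (Input d (d ^ n) n) : ℝ)
          ≤ (N : ℝ) ^ (1 - η) * (Fintype.card (Input d (d ^ n) n) : ℝ) :=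
            mul_le_mul_of_nonneg_right e1 (Nat.cast_nonneg _)
        _ ≤ ∑ x, (M x : ℝ) := key
        _ ≤ ∑ x, (S (pw L m x) : ℝ) := sum_le_sum fun x _ => by exact_mod_cast hM1 x
    · change Real.log Q'.size ≤ ε * (Real.log N) ^ 2
      rw [hQ's]
      refine hQs.trans ?_
      have : Real.log m ^ 2 ≤ (2 * Real.log N) ^ 2 :=
        pow_le_pow_left₀ (hlogN.trans hlogm) hlogm2 2
      nlinarith
    · intro x
      convert hM2 x
    · change (1 / 2 + (N : ℝ) ^ (-c)) * (Fintype.card (Input d (d ^ n) n) : ℝ) ≤ _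
      refine le_trans (mul_le_mul_of_nonneg_right ?_ (Nat.cast_nonneg _)) hQ
      have e1 : (N : ℝ) ^ (-c) ≤ (m : ℝ) ^ (-(c / 2)) := by
        have e2 : (m : ℝ) ^ (c / 2) ≤ (N : ℝ) ^ c := by
          calc (m : ℝ) ^ (c / 2) ≤ ((N : ℝ) ^ (1 + η)) ^ (c / 2) :=
                Real.rpow_le_rpow hm0.le hmN (by positivity)
            _ = (N : ℝ) ^ ((1 + η) * (c / 2)) := by rw [← Real.rpow_mul hN0.le]
            _ ≤ (N : ℝ) ^ c := by
              apply Real.rpow_le_rpow_of_exponent_le hN1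
              nlinarith
        rw [Real.rpow_neg hN0.le, Real.rpow_neg hm0.le]
        exact inv_anti₀ (by positivity) e2
      linarith

end Pool.Agent.W997.CF
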