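import Pool.Agent.W997.TS.Defs
import Pool.Agent.H561R2.CF.PDADefs

/-!
# A deterministic context-free language which contains tree evaluation
-/

set_option autoImplicit false

namespace Pool.Agent.W997.CF

open Pool.Agent.W997.TS (DBP Var Input value rootValue bit)
open Pool.Agent.H561R2.CF (RDPDA)

/-- The states. -/
inductive St : Type where
  | run | toBar | toCls | yes | no
  deriving DecidableEq

instance : Fintype St :=
  ⟨{.run, .toBar, .toCls, .yes, .no}, fun x => by cases x <;> decide⟩

/-- The stack symbols. -/
inductive Sy : Type where
  | bit (b : Bool)
  | mark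
  deriving DecidableEq

instance : Fintype Sy :=
  ⟨{.bit false, .bit true, .mark}, fun x => by rcases x with (_ | _) | _ <;> decide⟩

/-- The steps of the machine; the arguments are the state, the topmost stack symbol and the input
letter (`0` and `1` are digits, `2` opens and `4` closes a bracket, `3` is a bar in a bracket and
`5` is the end marker). -/
def step (q : St) (t : Option Sy) (a : Fin 6) : Option (St × List Sy) :=
  match q, t, a.val with
  | .run, t, 0 => some (.run, .bit false :: t.toList)
  | .run, t, 1 => some (.run, .bit true :: t.toList)
  | .run, some (.bit false), 2 => some (.run, [])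
  | .run, some (.bit true), 2 => some (.toBar, [])
  | .run, t, 3 => some (.toCls, t.toList)
  | .run, t, 4 => some (.run, t.toList)
  | .run, some (.bit false), 5 => some (.yes, [])
  | .run, some (.bit true), 5 => some (.no, [])
  | .toBar, t, 0 => some (.toBar, t.toList)
  | .toBar, t, 1 => some (.toBar, t.toList)
  | .toBar, t, 2 => some (.toBar, .mark :: t.toList)
  | .toBar, some .mark, 3 => some (.toBar, [.mark])
  | .toBar, some (.bit b), 3 => some (.run, [.bit b])
  | .toBar, none, 3 => some (.run, [])
  | .toBar, some .mark, 4 => some (.toBar, [])
  | .toCls, t, 0 => some (.toCls, t.toList)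
  | .toCls, t, 1 => some (.toCls, t.toList)
  | .toCls, t, 2 => some (.toCls, .mark :: t.toList)
  | .toCls, some .mark, 3 => some (.toCls, [.mark])
  | .toCls, some .mark, 4 => some (.toCls, [])
  | .toCls, some (.bit b), 4 => some (.run, [.bit b])
  | .toCls, none, 4 => some (.run, [])
  | _, _, _ => none

/-- The real-time deterministic pushdown automaton. -/
def mach : RDPDA St Sy (Fin 6) where
  start := .run
  final := {.yes}
  step := step

/-! ### Templates -/

/-- A letter of a template: a fixed letter, or a binary digit of the letter at a variable. -/
abbrev TL (V : Type) : Type := Fin 6 ⊕ (V × ℕ)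

/-- The letter which belongs to an input. -/
def ev {V : Type} {k : ℕ} (x : V → Fin k) : TL V → Fin 6
  | .inl a => a
  | .inr (u, e) => if (x u).val.testBit e then 1 else 0

/-- The digits `L - 1`, ..., `0` of the letter at a variable. -/
def digits {V : Type} (L : ℕ) (u : V) : List (TL V) :=
  (List.range L).reverse.map (fun e => Sum.inr (u, e))

/-- The decision tree of depth `t` with the words `F a` at the leaves `a`. -/
def tree {V : Type} : (t : ℕ) → (List Bool → List (TL V)) → List (TL V)
  | 0, F => F []
  | t + 1, F => Sum.inl 2 :: (tree t (fun a => F (false :: a)) ++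
      Sum.inl 3 :: (tree t (fun a => F (true :: a)) ++ [Sum.inl 4]))

/-- The letter of the child `s` in the address `a`, which consists of the digits of the children
`d - 1`, ..., `0`, the lowest digit of each letter first. -/
def arg (d L : ℕ) (a : List Bool) (s : Fin d) : ℕ :=
  Nat.ofBits (fun e : Fin L => a.getD ((d - 1 - s.val) * L + e.val) false)

open Classical in
/-- The entry of the table of the inner node `v` with address `a`. -/
noncomputable def entry {d k n : ℕ} (L : ℕ) (v : {v : List (Fin d) // v.length < n})
    (a : List Bool) : List (TL (Var d k n)) :=
  if h : ∀ s, arg d L a s < k then digits L (Sum.inl (v, fun s => ⟨arg d L a s, h s⟩))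
  else List.replicate L (Sum.inl 0)

/-- The template for the subtree below a node: the templates of the children, then the table as a
decision tree. -/
noncomputable def tmpl {d k n : ℕ} (L : ℕ) (v : List (Fin d)) (h : v.length ≤ n) :
    List (TL (Var d k n)) :=
  if h' : v.length < n then
    (List.finRange d).flatMap (fun s => tmpl L (s :: v) (by simpa using h')) ++
      tree (d * L) (entry L ⟨v, h'⟩)
  else digits L (Sum.inr ⟨v, by omega⟩)
termination_by n - v.length

/-- The template of the word. -/
noncomputable def wd (d k n L : ℕ) : List (TL (Var d k n)) :=
  tmpl L [] (Nat.zero_le n) ++ [Sum.inl 5]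

/-- The word of an input. -/
noncomputable def word {d k n : ℕ} (L : ℕ) (x : Input d k n) : Fin (wd d k n L).length → Fin 6 :=
  fun i => ev x ((wd d k n L).get i)

end Pool.Agent.W997.CF
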