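import Pool.Agent.W997.CF.Asym
import Pool.Agent.W216.CFPDA

/-!
# Leading zeros
-/

set_option autoImplicit false

namespace Pool.Agent.W997.CF

open Pool.Agent.W997.TS (DBP Var Input value rootValue bit)
open Pool.Agent.H561R2.CF (RDPDA)
open Pool.Agent.W216.CFPDA (run_app run_tmpl enc)

theorem run_zeros (j : ℕ) (s : List Bool) :
    mach.run (St.run, s.map Sy.bit) (List.replicate j (0 : Fin 6)) =
      some (St.run, (List.replicate j false ++ s).map Sy.bit) := by
  induction j generalizing s with
  | zero => rfl
  | succ j ih =>
    have h1 : mach.next (St.run, s.map Sy.bit) 0 = some (St.run, (false :: s).map Sy.bit) := by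
      cases s <;> rfl
    rw [List.replicate_succ]
    change (mach.next (St.run, s.map Sy.bit) 0).bind _ = _
    rw [h1]
    change mach.run (St.run, (false :: s).map Sy.bit) (List.replicate j (0 : Fin 6)) = _
    rw [ih]
    congr 3
    rw [← List.singleton_append (x := false) (l := s), ← List.append_assoc,
      ← List.replicate_succ', List.replicate_succ]

theorem pda2 : S_PDA2 := by
  intro d k n L j hL hk x
  have h1 : List.ofFn (word L x) = (tmpl L [] (Nat.zero_le n)).map (ev x) ++ [5] := by
    have : List.ofFn (word L x) = (wd d k n L).map (ev x) := by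
      conv_rhs => rw [← List.ofFn_get (wd d k n L)]
      rw [List.map_ofFn]
      rfl
    rw [this, wd, List.map_append]
    rfl
  have h2 := run_tmpl L hk x (n - 0) [] (Nat.zero_le n) rfl (List.replicate j false)
  have h3 : mach.run (mach.start, []) (List.replicate j (0 : Fin 6) ++ List.ofFn (word L x)) =
      mach.run (St.run, (enc L (rootValue x).val ++ List.replicate j false).map Sy.bit) [5] := by
    rw [h1]
    have h0 := run_zeros j []
    rw [List.append_nil] at h0
    have h0' : mach.run (mach.start, []) (List.replicate j (0 : Fin 6)) =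
      some (St.run, (List.replicate j false).map Sy.bit) := h0
    rw [run_app _ _ _ _ _ h0', run_app _ _ _ _ _ h2]
    rfl
  have h4 : ∃ r : List Bool, enc L (rootValue x).val = (rootValue x).val.testBit 0 :: r := by
    obtain ⟨L, rfl⟩ : ∃ L', L = L' + 1 := ⟨L - 1, by omega⟩
    refine ⟨(List.range L).map (fun e => (rootValue x).val.testBit (e + 1)), ?_⟩
    unfold enc
    rw [List.range_succ_eq_map, List.map_cons, List.map_map]
    rfl
  obtain ⟨r, hr⟩ := h4
  rw [hr, List.cons_append] at h3
  set r' := r ++ List.replicate j false
  show (∃ c, mach.run (mach.start, []) (List.replicate j (0 : Fin 6) ++ List.ofFn (word L x)) =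
    some c ∧ c.1 ∈ mach.final) ↔ _
  rw [h3, Nat.testBit_zero]
  unfold bit
  rcases Nat.mod_two_eq_zero_or_one (rootValue x).val with h5 | h5
  · rw [h5]
    simp only [decide_true, iff_true]
    refine ⟨(St.yes, r'.map Sy.bit), rfl, rfl⟩
  · rw [h5]
    have : ¬ ∃ c : St × List Sy, mach.run (St.run, List.map Sy.bit (decide (1 = 1) :: r')) [5] =
        some c ∧ c.1 ∈ mach.final := by
      rintro ⟨c, hc, hc'⟩
      have h6 : mach.run (St.run, List.map Sy.bit (decide (1 = 1) :: r')) [5] =
        some (St.no, r'.map Sy.bit) := rfl
      rw [h6] at hc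
      obtain rfl := Option.some.inj hc
      exact absurd hc' (by rintro ⟨⟩)
    exact iff_of_false this (by decide)

end Pool.Agent.W997.CF
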