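import Pool.Agent.W997.CF.Defs

/-!
# The parts of the proof
-/

set_option autoImplicit false

namespace Pool.Agent.W997.CF

open Pool.Agent.W997.TS (DBP Var Input value rootValue bit)
open Pool.Agent.H561R2.CF (RDPDA)

/-- The machine evaluates the tree. -/
def S_PDA : Prop :=
  ∀ (d k n L : ℕ), 1 ≤ L → k ≤ 2 ^ L → ∀ x : Input d k n,
    (List.ofFn (word L x) ∈ mach.language ↔ bit (rootValue x) = true)

/-- Every digit of every variable occurs in the word. -/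
def S_MEM : Prop :=
  ∀ (d k n L : ℕ), 1 ≤ L → k ≤ 2 ^ L → ∀ (u : Var d k n) (e : ℕ), e < L →
    (Sum.inr (u, e) : TL (Var d k n)) ∈ wd d k n L

/-- The length of the word. -/
def S_LEN : Prop :=
  ∀ (d k n L : ℕ), 2 ≤ d → 1 ≤ L → 2 ^ L ≤ 2 * k →
    (wd d k n L).length ≤ Fintype.card (Var d k n) * (2 ^ d * (L + 3)) + 1

/-- A program over the variables gives a program over the positions. -/
def S_SIM : Prop :=
  ∀ (V : Type) (_ : DecidableEq V) (k m L : ℕ) (P : DBP V k) (pos : V → ℕ → Fin m),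
    1 ≤ L → k ≤ 2 ^ L →
    ∃ P' : DBP (Fin m) 6, P'.size ≤ P.size * 2 ^ L ∧
      ∀ (x : V → Fin k) (w : Fin m → Fin 6),
        (∀ u e, e < L → w (pos u e) = if (x u).val.testBit e then 1 else 0) →
        ∀ t s r, P.Run x t s r → ∃ s', P'.Run w (L * t) s' r

/-- A program over the positions gives a program over the variables. -/
def S_TRANS : Prop :=
  ∀ (V : Type) (_ : DecidableEq V) (k m : ℕ) (P : DBP (Fin m) 6) (T : Fin m → TL V) (_ : V),
    ∃ P' : DBP V k, P'.size = P.size ∧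
      ∀ (x : V → Fin k) (w : Fin m → Fin 6), (∀ i, w i = ev x (T i)) →
        ∀ t s r, P.Run w t s r → ∃ s', s' ≤ s ∧ P'.Run x t s' r

/-- The overhead is small. -/
def S_NUM : Prop :=
  ∀ (d : ℕ) (η : ℝ), 2 ≤ d → 0 < η → ∃ n₀ : ℕ, ∀ n : ℕ, n₀ ≤ n → ∀ L : ℕ, 2 ^ L ≤ 2 * d ^ n →
    ((2 : ℝ) ^ d * ((L : ℝ) + 3) + 1) ≤ (Fintype.card (Var d (d ^ n) n) : ℝ) ^ η

end Pool.Agent.W997.CF
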